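import Mathlib
import Pool.Agent.Helper95.RandSeqDefs
import Pool.Agent.Helper95.RandSeqProb

/-!
# MP_992633_an: the pointwise ergodic theorem along random sequences of density `log log n / n`
fails almost surely
-/

open MeasureTheory ProbabilityTheory Filter
open scoped ENNReal Topology

namespace Pool.Agent.Results.MP_992633_an.PointwiseFails

open RandSeq

/-- The hypotheses on `(Ω, P, X)` can be met for every `σ` with values in `[0,1]`. -/
theorem exists_model (σ : ℕ → ℝ) (hσ : ∀ n, 1 ≤ n → 0 < σ n ∧ σ n ≤ 1) :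
    ∃ (Ω : Type) (_ : MeasurableSpace Ω) (P : Measure Ω) (_ : IsProbabilityMeasure P)
      (X : ℕ → Ω → ℕ), Model P X σ := by
  classical
  let s : ℕ → ℝ := fun n => if 1 ≤ n then σ n else 1
  have hs : ∀ n, 0 ≤ s n ∧ s n ≤ 1 := by
    intro n
    by_cases h : 1 ≤ n
    · simp only [s, h, if_true]; exact ⟨(hσ n h).1.le, (hσ n h).2⟩
    · simp only [s, h, if_false]; norm_num
  let ν : ℕ → Measure ℕ := fun n =>
    ENNReal.ofReal (1 - s n) • Measure.dirac 0 + ENNReal.ofReal (s n) • Measure.dirac 1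
  have hν : ∀ n, IsProbabilityMeasure (ν n) := by
    intro n
    constructor
    simp only [ν, Measure.add_apply, Measure.smul_apply, measure_univ, smul_eq_mul, mul_one]
    rw [← ENNReal.ofReal_add (by linarith [(hs n).2]) (hs n).1]
    simp
  have hae : ∀ n, ν n {m | m = 0 ∨ m = 1}ᶜ = 0 := by
    intro n
    simp [ν]
  let X : ℕ → (ℕ → ℕ) → ℕ := fun n ω => if ω n = 1 then 1 else 0
  refine ⟨ℕ → ℕ, inferInstance, Measure.infinitePi ν, inferInstance, X, ?_, ?_, ?_, ?_⟩
  · intro n _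
    exact (measurable_of_countable (fun m : ℕ => if m = 1 then 1 else 0)).comp
      (measurable_pi_apply n)
  · have h := iIndepFun_infinitePi (P := ν) (X := fun (_ : ℕ) (m : ℕ) => if m = 1 then 1 else 0)
      (fun n => measurable_of_countable _)
    exact h.precomp PNat.coe_injective
  · intro n _ ω
    by_cases h : ω n = 1
    · right; simp [X, h]
    · left; simp [X, h]
  · intro n hn
    have e : {ω : ℕ → ℕ | X n ω = 1} = (fun ω : ℕ → ℕ => ω n) ⁻¹' {1} := by
      ext ω
      by_cases h : ω n = 1 <;> simp [X, h]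
    rw [e, ← Measure.map_apply (measurable_pi_apply n) (measurableSet_singleton _)]
    have := Measure.infinitePi_map_eval ν n
    rw [this]
    simp [ν, s, hn]

/-- **Full disproof of Q1.** Let `σ_n = log log n / n` for `n ≥ n₀` (arbitrary in `(0,1]` before),
and let `X₁, X₂, …` be independent with `P(X_n = 1) = σ_n = 1 - P(X_n = 0)`. Then for almost
every `ω` there are an invertible measure preserving system and a bounded function (even the
indicator function of a measurable set) whose averages along `a_n(ω)` do not converge a.e.;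
in particular the pointwise ergodic theorem along `a_n(ω)` fails almost surely, and it is
not true that it holds almost surely. -/
theorem result (σ : ℕ → ℝ) (n₀ : ℕ)
    (hσ : ∀ n, 1 ≤ n → 0 < σ n ∧ σ n ≤ 1)
    (hσ0 : ∀ n, n₀ ≤ n → σ n = Real.log (Real.log n) / n)
    {Ω : Type*} [MeasurableSpace Ω] (P : Measure Ω) [IsProbabilityMeasure P]
    (X : ℕ → Ω → ℕ) (hX : Model P X σ) :
    (∀ᵐ ω ∂P, ∃ (Y : Type) (_ : MeasurableSpace Y) (_ : StandardBorelSpace Y) (μ : Measure Y)
      (_ : IsProbabilityMeasure μ) (T : Y ≃ᵐ Y) (f : Y → ℝ),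
      MeasurePreserving T μ μ ∧ Measurable f ∧ (∀ y, f y = 0 ∨ f y = 1) ∧
      ¬ ∀ᵐ y ∂μ, ∃ l : ℝ, Tendsto (fun N : ℕ =>
        (∑ n ∈ Finset.Icc 1 N, f (T^[seqA (fun m => X m ω) n] y)) / (N : ℝ)) atTop (𝓝 l)) ∧
    (∀ᵐ ω ∂P, ¬ PointwiseErgodicAlong (seqA (fun m => X m ω))) ∧
    ¬ (∀ᵐ ω ∂P, PointwiseErgodicAlong (seqA (fun m => X m ω))) := by
  have h1 : ∀ᵐ ω ∂P, ∃ (Y : Type) (_ : MeasurableSpace Y) (_ : StandardBorelSpace Y)
      (μ : Measure Y) (_ : IsProbabilityMeasure μ) (T : Y ≃ᵐ Y) (f : Y → ℝ),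
      MeasurePreserving T μ μ ∧ Measurable f ∧ (∀ y, f y = 0 ∨ f y = 1) ∧
      ¬ ∀ᵐ y ∂μ, ∃ l : ℝ, Tendsto (fun N : ℕ =>
        (∑ n ∈ Finset.Icc 1 N, f (T^[seqA (fun m => X m ω) n] y)) / (N : ℝ)) atTop (𝓝 l) := by
    filter_upwards [ae_good hσ hσ0 hX] with ω hω
    obtain ⟨I0, hg⟩ := hω
    obtain ⟨E, hE, hμE, hfr⟩ := exists_bad_set hg (δ := 1/100) (by norm_num) (by norm_num)
    refine ⟨ℤ → ℝ, inferInstance, inferInstance, bern, inferInstance, shift,
      E.indicator (fun _ => (1:ℝ)), measurePreserving_shift, measurable_const.indicator hE, ?_, ?_⟩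
    · intro y
      by_cases hy : y ∈ E
      · right; simp [hy]
      · left; simp [hy]
    · exact not_converge (by norm_num) (by norm_num) hE hμE hfr
  have h2 : ∀ᵐ ω ∂P, ¬ PointwiseErgodicAlong (seqA (fun m => X m ω)) := by
    filter_upwards [h1] with ω hω hall
    obtain ⟨Y, mY, _, μ, hμ, T, f, hT, hf, hf01, hne⟩ := hω
    apply hne
    have hb : ∃ C : ℝ, ∀ y, |f y| ≤ C := by
      refine ⟨1, fun y => ?_⟩
      rcases hf01 y with h | h <;> simp [h]
    filter_upwards [hall Y mY μ hμ T hT f hf hb] with y hy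
    obtain ⟨l, hl, _⟩ := hy
    exact ⟨l, hl⟩
  refine ⟨h1, h2, fun h3 => ?_⟩
  obtain ⟨ω, hω, hω'⟩ := (h2.and h3).exists
  exact hω hω'

end Pool.Agent.Results.MP_992633_an.PointwiseFails
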